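import Mathlib

set_option autoImplicit false

open scoped ComplexConjugate unitInterval

namespace Pool.Agent.Lib.MP_3c821f_gt

/-- Two complex coordinates. -/
abbrev E := ℂ × ℂ

/-- The sum of the squares of the absolute values of the coordinates. -/
def N (p : E) : ℝ := Complex.normSq p.1 + Complex.normSq p.2

lemma N_nonneg (p : E) : 0 ≤ N p := add_nonneg (Complex.normSq_nonneg _) (Complex.normSq_nonneg _)

lemma N_continuous : Continuous N := by
  unfold N
  fun_prop

/-- The unit sphere of dimension three. -/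
def S : Type := {p : E // N p = 1}

instance : TopologicalSpace S := inferInstanceAs (TopologicalSpace {p : E // N p = 1})
noncomputable instance : MetricSpace S := inferInstanceAs (MetricSpace {p : E // N p = 1})

lemma isCompact_sphere : IsCompact {p : E | N p = 1} := by
  refine Metric.isCompact_of_isClosed_isBounded (isClosed_eq N_continuous continuous_const) ?_
  refine (Metric.isBounded_closedBall (x := (0 : E)) (r := 1)).subset ?_
  intro p hp
  have hp' : Complex.normSq p.1 + Complex.normSq p.2 = 1 := hp
  rw [mem_closedBall_zero_iff, Prod.norm_def]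
  have h1 : ‖p.1‖ ^ 2 ≤ 1 := by
    rw [← Complex.normSq_eq_norm_sq]
    have := Complex.normSq_nonneg p.2
    linarith
  have h2 : ‖p.2‖ ^ 2 ≤ 1 := by
    rw [← Complex.normSq_eq_norm_sq]
    have := Complex.normSq_nonneg p.1
    linarith
  refine max_le ?_ ?_
  · nlinarith [norm_nonneg p.1]
  · nlinarith [norm_nonneg p.2]

instance : CompactSpace S := isCompact_iff_compactSpace.1 isCompact_sphere

/-- Quaternion multiplication, `(a, b)` standing for `a + b j`. -/
def qmul (p q : E) : E := (p.1 * q.1 - p.2 * conj q.2, p.1 * q.2 + p.2 * conj q.1)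

lemma N_qmul (p q : E) : N (qmul p q) = N p * N q := by
  have h : ∀ z w : ℂ, Complex.normSq (z * w) = Complex.normSq z * Complex.normSq w :=
    fun z w => Complex.normSq_mul z w
  simp only [N, qmul, Complex.normSq_apply, Complex.sub_re, Complex.sub_im, Complex.add_re,
    Complex.add_im, Complex.mul_re, Complex.mul_im, Complex.conj_re, Complex.conj_im]
  ring

lemma continuous_qmul {X : Type*} [TopologicalSpace X] {f g : X → E} (hf : Continuous f)
    (hg : Continuous g) : Continuous fun x => qmul (f x) (g x) := by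
  unfold qmul
  fun_prop

/-- Normalisation. -/
noncomputable def nrm (p : E) : E := ((Real.sqrt (N p))⁻¹ : ℝ) • p

lemma N_smul (r : ℝ) (p : E) : N (r • p) = r ^ 2 * N p := by
  simp only [N, Prod.smul_fst, Prod.smul_snd, Complex.real_smul, Complex.normSq_mul,
    Complex.normSq_ofReal]
  ring

lemma N_nrm {p : E} (hp : N p ≠ 0) : N (nrm p) = 1 := by
  have h0 : 0 < N p := lt_of_le_of_ne (N_nonneg p) (Ne.symm hp)
  rw [nrm, N_smul, inv_pow, Real.sq_sqrt h0.le, inv_mul_cancel₀ hp]

lemma nrm_of_N_eq_one {p : E} (hp : N p = 1) : nrm p = p := by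
  simp [nrm, hp]

/-- A nowhere vanishing continuous map into `E` induces a map into the sphere. -/
noncomputable def mkS {X : Type*} [TopologicalSpace X] (P : X → E) (hP : Continuous P)
    (h0 : ∀ x, N (P x) ≠ 0) : C(X, S) where
  toFun x := ⟨nrm (P x), N_nrm (h0 x)⟩
  continuous_toFun := by
    refine Continuous.subtype_mk ?_ _
    unfold nrm
    refine Continuous.smul (f := fun x => ((Real.sqrt (N (P x)))⁻¹ : ℝ)) ?_ hP
    refine Continuous.inv₀ (Real.continuous_sqrt.comp (N_continuous.comp hP)) ?_
    intro x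
    have h1 : 0 < N (P x) := lt_of_le_of_ne (N_nonneg _) (Ne.symm (h0 x))
    exact (Real.sqrt_pos.2 h1).ne'

lemma mkS_val {X : Type*} [TopologicalSpace X] (P : X → E) (hP : Continuous P)
    (h0 : ∀ x, N (P x) ≠ 0) (x : X) : (mkS P hP h0 x).1 = nrm (P x) := rfl

lemma N_ne_zero {p : E} (h : p.1 ≠ 0 ∨ p.2 ≠ 0) : N p ≠ 0 := by
  intro h0
  have h1 := Complex.normSq_nonneg p.1
  have h2 := Complex.normSq_nonneg p.2
  have h0' : Complex.normSq p.1 + Complex.normSq p.2 = 0 := h0
  rcases h with h | h
  · exact h (Complex.normSq_eq_zero.1 (by linarith))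
  · exact h (Complex.normSq_eq_zero.1 (by linarith))

/-- Left multiplication by `j`. -/
def jx (p : E) : E := (-conj p.2, conj p.1)

lemma N_jx (p : E) : N (jx p) = N p := by
  simp only [N, jx, Complex.normSq_neg, Complex.normSq_conj]
  ring

lemma continuous_jx : Continuous jx := by
  unfold jx
  fun_prop

/-- The unnormalised equivariant map. -/
noncomputable def P0 (p : E) : E :=
  qmul (conj p.1 ^ 2, Complex.I * p.2) (qmul (jx p) (jx p))

/-- First homotopy. -/
noncomputable def F1 (t : ℝ) (p : E) : E :=
  qmul (conj p.1 ^ 2 - (t * Complex.normSq p.2 : ℝ), ((1 - t : ℝ) * Complex.I + (2 * t * p.1.re : ℝ)) * p.2)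
    (qmul (jx p) (jx p))

/-- Second homotopy. -/
noncomputable def uu (t : ℝ) : ℂ := (1 - t : ℝ) * Complex.I + (t : ℝ)

noncomputable def YY (t : ℝ) (p : E) : E :=
  qmul (uu t, 0) (qmul (conj p.1, -p.2) (conj (uu t), 0))

noncomputable def ZZ (t : ℝ) (p : E) : E :=
  qmul ((t : ℂ), ((1 - t : ℝ) : ℂ)) p

noncomputable def F2 (t : ℝ) (p : E) : E :=
  qmul (qmul (YY t p) (YY t p)) (qmul (ZZ t p) (ZZ t p))

lemma continuous_F1 : Continuous fun q : I × S => F1 q.1 q.2.1 := by
  have h1 : Continuous fun q : I × S => (q.1 : ℝ) := by fun_prop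
  have h2 : Continuous fun q : I × S => (q.2.1 : E) := continuous_subtype_val.comp continuous_snd
  have h3 : Continuous fun q : I × S => (q.2.1 : E).1 := continuous_fst.comp h2
  have h4 : Continuous fun q : I × S => (q.2.1 : E).2 := continuous_snd.comp h2
  unfold F1
  refine continuous_qmul ?_ (continuous_qmul (continuous_jx.comp h2) (continuous_jx.comp h2))
  refine Continuous.prodMk ?_ ?_
  · have : Continuous fun q : I × S => Complex.normSq (q.2.1 : E).2 :=
      Complex.continuous_normSq.comp h4
    have h5 : Continuous fun q : I × S => conj (q.2.1 : E).1 := Complex.continuous_conj.comp h3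
    exact (h5.pow 2).sub (Complex.continuous_ofReal.comp (h1.mul this))
  · have : Continuous fun q : I × S => (q.2.1 : E).1.re := Complex.continuous_re.comp h3
    refine Continuous.mul (Continuous.add ?_ ?_) h4
    · exact (Complex.continuous_ofReal.comp (continuous_const.sub h1)).mul continuous_const
    · exact Complex.continuous_ofReal.comp ((continuous_const.mul h1).mul this)

lemma continuous_F2 : Continuous fun q : I × S => F2 q.1 q.2.1 := by
  have h1 : Continuous fun q : I × S => (q.1 : ℝ) := by fun_prop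
  have h2 : Continuous fun q : I × S => (q.2.1 : E) := continuous_subtype_val.comp continuous_snd
  have h3 : Continuous fun q : I × S => (q.2.1 : E).1 := continuous_fst.comp h2
  have h4 : Continuous fun q : I × S => (q.2.1 : E).2 := continuous_snd.comp h2
  have h5 : Continuous fun q : I × S => conj (q.2.1 : E).1 := Complex.continuous_conj.comp h3
  have hu : Continuous fun q : I × S => uu q.1 := by
    unfold uu
    exact ((Complex.continuous_ofReal.comp (continuous_const.sub h1)).mul continuous_const).add
      (Complex.continuous_ofReal.comp h1)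
  have hu' : Continuous fun q : I × S => conj (uu q.1) := Complex.continuous_conj.comp hu
  have hY : Continuous fun q : I × S => YY q.1 q.2.1 := by
    unfold YY
    refine continuous_qmul (hu.prodMk continuous_const) (continuous_qmul (h5.prodMk h4.neg)
      (hu'.prodMk continuous_const))
  have hZ : Continuous fun q : I × S => ZZ q.1 q.2.1 := by
    unfold ZZ
    refine continuous_qmul (Continuous.prodMk ?_ ?_) h2
    · exact Complex.continuous_ofReal.comp h1
    · exact Complex.continuous_ofReal.comp (continuous_const.sub h1)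
  unfold F2
  exact continuous_qmul (continuous_qmul hY hY) (continuous_qmul hZ hZ)

lemma N_F1 (t : ℝ) (p : E) (hp : N p = 1) : N (F1 t p) ≠ 0 := by
  rw [F1, N_qmul, N_qmul, N_jx, hp, mul_one, mul_one]
  by_cases hb : p.2 = 0
  · have ha : p.1 ≠ 0 := by
      intro ha
      simp [N, ha, hb] at hp
    refine N_ne_zero (Or.inl ?_)
    simp [hb, ha]
  · by_cases ht : ((1 - t : ℝ) * Complex.I + (2 * t * p.1.re : ℝ)) = 0
    · have h1 : 2 * t * p.1.re = 0 := by
        have := congrArg Complex.re ht
        simpa using this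
      have h2 : 1 - t = 0 := by
        have := congrArg Complex.im ht
        simpa using this
      have ht1 : t = 1 := by linarith
      have hre : p.1.re = 0 := by
        rw [ht1] at h1
        linarith
      refine N_ne_zero (Or.inl ?_)
      intro h0
      have h3 := congrArg Complex.re h0
      simp only [Complex.sub_re, Complex.ofReal_re, Complex.zero_re, pow_two, Complex.mul_re,
        Complex.conj_re, Complex.conj_im, hre, ht1] at h3
      have h4 : Complex.normSq p.2 ≤ 0 := by nlinarith [sq_nonneg p.1.im]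
      exact hb (Complex.normSq_eq_zero.1 (le_antisymm h4 (Complex.normSq_nonneg _)))
    · refine N_ne_zero (Or.inr ?_)
      exact mul_ne_zero ht hb

lemma uu_ne (t : ℝ) : Complex.normSq (uu t) ≠ 0 := by
  intro h
  have h0 := Complex.normSq_eq_zero.1 h
  have h1 := congrArg Complex.re h0
  have h2 := congrArg Complex.im h0
  simp [uu] at h1 h2
  linarith

lemma N_F2 (t : ℝ) (p : E) (hp : N p = 1) : N (F2 t p) ≠ 0 := by
  have hY : N (YY t p) ≠ 0 := by
    rw [YY, N_qmul, N_qmul]
    have e1 : N (uu t, 0) = Complex.normSq (uu t) := by simp [N]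
    have e2 : N (conj (uu t), 0) = Complex.normSq (uu t) := by simp [N]
    have e3 : N (conj p.1, -p.2) = 1 := by
      rw [← hp]
      simp [N]
    rw [e1, e2, e3, one_mul]
    exact mul_ne_zero (uu_ne t) (uu_ne t)
  have hZ : N (ZZ t p) ≠ 0 := by
    rw [ZZ, N_qmul, hp, mul_one]
    by_cases ht : t = 0
    · refine N_ne_zero (Or.inr ?_)
      simp [ht]
    · refine N_ne_zero (Or.inl ?_)
      simpa using ht
  rw [F2, N_qmul, N_qmul, N_qmul]
  exact mul_ne_zero (mul_ne_zero hY hY) (mul_ne_zero hZ hZ)

lemma F1_zero (p : E) : F1 0 p = P0 p := by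
  simp [F1, P0]

lemma F1_one (p : E) : F1 1 p = F2 0 p := by
  have hY : qmul (YY 0 p) (YY 0 p) = (conj p.1 ^ 2 - (Complex.normSq p.2 : ℝ),
      ((2 * p.1.re : ℝ)) * p.2) := by
    simp only [YY, uu, qmul]
    apply Prod.ext
    · apply Complex.ext <;> simp [Complex.normSq_apply, pow_two] <;> ring
    · apply Complex.ext <;> simp <;> ring
  have hZ : ZZ 0 p = jx p := by
    simp [ZZ, jx, qmul]
  rw [F2, hY, hZ, F1]
  simp

lemma F2_one (p : E) (hp : N p = 1) : F2 1 p = (1, 0) := by
  have hp' : p.1.re * p.1.re + p.1.im * p.1.im + (p.2.re * p.2.re + p.2.im * p.2.im) = 1 := hp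
  have hY : YY 1 p = (conj p.1, -p.2) := by
    simp [YY, uu, qmul]
  have hZ : ZZ 1 p = p := by
    simp [ZZ, qmul]
  rw [F2, hY, hZ]
  simp only [qmul]
  apply Prod.ext
  · apply Complex.ext
    · simp
      linear_combination (p.1.re * p.1.re + p.1.im * p.1.im + (p.2.re * p.2.re + p.2.im * p.2.im) + 1) * hp'
    · simp
      ring
  · apply Complex.ext <;> simp <;> ring

/-- The equivariant map of degree zero. -/
noncomputable def f : C(S, S) :=
  mkS (fun x : S => P0 x.1) (by
    have := continuous_F1.comp (Continuous.prodMk (continuous_const (y := (0 : I))) (continuous_id (X := S)))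
    refine this.congr fun x => ?_
    exact F1_zero x.1) (fun x => by
      rw [← F1_zero]
      exact N_F1 0 x.1 x.2)

/-- The base point. -/
def base : S := ⟨(1, 0), by simp [N]⟩

/-- The first homotopy as a continuous map. -/
noncomputable def H1 : C(I × S, S) :=
  mkS (fun q : I × S => F1 (q.1 : ℝ) q.2.1) continuous_F1 (fun q => N_F1 (q.1 : ℝ) q.2.1 q.2.2)

/-- The second homotopy as a continuous map. -/
noncomputable def H2 : C(I × S, S) :=
  mkS (fun q : I × S => F2 (q.1 : ℝ) q.2.1) continuous_F2 (fun q => N_F2 (q.1 : ℝ) q.2.1 q.2.2)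

lemma H1_val (t : I) (x : S) : (H1 (t, x)).1 = nrm (F1 (t : ℝ) x.1) := rfl

lemma H2_val (t : I) (x : S) : (H2 (t, x)).1 = nrm (F2 (t : ℝ) x.1) := rfl

lemma f_val (x : S) : (f x).1 = nrm (P0 x.1) := rfl

/-- The intermediate map. -/
noncomputable def g : C(S, S) :=
  H1.comp ⟨fun x : S => ((1 : I), x), by fun_prop⟩

lemma g_val (x : S) : (g x).1 = nrm (F1 1 x.1) := by
  have : g x = H1 (1, x) := rfl
  rw [this, H1_val, Set.Icc.coe_one]

lemma f_homotopic_g : ContinuousMap.Homotopic f g := by
  have h0 : ∀ x : S, H1 (0, x) = f x := by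
    intro x
    apply Subtype.ext
    rw [H1_val, f_val, Set.Icc.coe_zero, F1_zero]
  have h1 : ∀ x : S, H1 (1, x) = g x := by
    intro x
    rfl
  exact ⟨⟨H1, h0, h1⟩⟩

lemma g_homotopic : ContinuousMap.Homotopic g (ContinuousMap.const S base) := by
  have h0 : ∀ x : S, H2 (0, x) = g x := by
    intro x
    apply Subtype.ext
    rw [H2_val, g_val, Set.Icc.coe_zero, F1_one]
  have h1 : ∀ x : S, H2 (1, x) = ContinuousMap.const S base x := by
    intro x
    apply Subtype.ext
    rw [H2_val, Set.Icc.coe_one, F2_one x.1 x.2]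
    exact nrm_of_N_eq_one base.2
  exact ⟨⟨H2, h0, h1⟩⟩

lemma f_homotopic : ContinuousMap.Homotopic f (ContinuousMap.const S base) :=
  f_homotopic_g.trans g_homotopic

end Pool.Agent.Lib.MP_3c821f_gt
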