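import Mathlib
import Pool.Agent.Lib.MP_3c821f_gt.SphereMap

set_option autoImplicit false

open scoped ComplexConjugate unitInterval

namespace Pool.Agent.Lib.MP_3c821f_gt

/-- Diagonal multiplication. -/
def rot (w s : ℂ) (p : E) : E := (w * p.1, s * p.2)

/-- The pairs `(w, s)` we use: `w` a cube root of unity and `s` a sign. -/
def Good (w s : ℂ) : Prop := w ^ 3 = 1 ∧ conj w = w ^ 2 ∧ (s = 1 ∨ s = -1)

lemma Good.mul {w s w' s' : ℂ} (h : Good w s) (h' : Good w' s') : Good (w * w') (s * s') := by
  obtain ⟨h1, h2, h3⟩ := h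
  obtain ⟨h1', h2', h3'⟩ := h'
  refine ⟨by rw [mul_pow, h1, h1', one_mul], by rw [map_mul, h2, h2', mul_pow], ?_⟩
  rcases h3 with h3 | h3 <;> rcases h3' with h3' | h3' <;> simp [h3, h3']

lemma Good.one : Good 1 1 := ⟨by simp, by simp, Or.inl rfl⟩

lemma Good.pow {w s : ℂ} (h : Good w s) (n : ℕ) : Good (w ^ n) (s ^ n) := by
  induction n with
  | zero => simpa using Good.one
  | succ n ih =>
    rw [pow_succ, pow_succ]
    exact ih.mul h

lemma N_rot {w s : ℂ} (h : Good w s) (p : E) : N (rot w s p) = N p := by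
  obtain ⟨h1, h2, h3⟩ := h
  have hw : Complex.normSq w = 1 := by
    have : (Complex.normSq w : ℂ) = 1 := by
      rw [← Complex.mul_conj, h2, ← h1]
      ring
    exact_mod_cast this
  have hs : Complex.normSq s = 1 := by
    rcases h3 with h3 | h3 <;> simp [h3]
  simp [N, rot, hw, hs]

lemma P0_rot {w s : ℂ} (h : Good w s) (p : E) : P0 (rot w s p) = rot w s (P0 p) := by
  obtain ⟨h1, h2, h3⟩ := h
  have h4 : w ^ 4 = w := by
    calc w ^ 4 = w ^ 3 * w := by ring
      _ = w := by rw [h1, one_mul]
  have h6 : w ^ 6 = 1 := by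
    calc w ^ 6 = (w ^ 3) ^ 2 := by ring
      _ = 1 := by rw [h1, one_pow]
  have h10 : w ^ 10 = w := by
    calc w ^ 10 = (w ^ 3) ^ 3 * w := by ring
      _ = w := by rw [h1, one_pow, one_mul]
  have h12 : w ^ 12 = 1 := by
    calc w ^ 12 = (w ^ 3) ^ 4 := by ring
      _ = 1 := by rw [h1, one_pow]
  rcases h3 with rfl | rfl
  · simp only [P0, rot, qmul, jx, map_mul, map_neg, map_one, map_sub, map_add, map_pow,
      Complex.conj_conj, h2]
    apply Prod.ext
    · simp only []
      ring_nf
      simp only [h4, h10]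
      ring
    · simp only []
      ring_nf
      simp only [h6, h12]
      ring
  · simp only [P0, rot, qmul, jx, map_mul, map_neg, map_one, map_sub, map_add, map_pow,
      Complex.conj_conj, h2]
    apply Prod.ext
    · simp only []
      ring_nf
      simp only [h4, h10]
      ring
    · simp only []
      ring_nf
      simp only [h6, h12]
      ring

/-- The primitive cube root of unity. -/
noncomputable def om : ℂ := ⟨-1 / 2, Real.sqrt 3 / 2⟩

lemma sqrt3 : Real.sqrt 3 * Real.sqrt 3 = 3 := Real.mul_self_sqrt (by norm_num)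

lemma om_sq : om ^ 2 = conj om := by
  apply Complex.ext
  · simp only [om, pow_two, Complex.mul_re, Complex.conj_re]
    nlinarith [sqrt3]
  · simp only [om, pow_two, Complex.mul_im, Complex.conj_im]
    ring

lemma om_cube : om ^ 3 = 1 := by
  have : om ^ 3 = om * om ^ 2 := by ring
  rw [this, om_sq, Complex.mul_conj]
  have : Complex.normSq om = 1 := by
    simp only [om, Complex.normSq_apply]
    nlinarith [sqrt3]
  rw [this]
  simp

lemma om_good : Good om (-1) := ⟨om_cube, om_sq.symm, Or.inr rfl⟩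

/-- The action of the natural number `n`. -/
noncomputable def act (n : ℕ) (x : S) : S :=
  ⟨rot (om ^ n) ((-1) ^ n) x.1, (N_rot (om_good.pow n) x.1).trans x.2⟩

lemma act_val (n : ℕ) (x : S) : (act n x).1 = rot (om ^ n) ((-1) ^ n) x.1 := rfl

lemma continuous_act (n : ℕ) : Continuous (act n) := by
  refine Continuous.subtype_mk ?_ _
  have h2 : Continuous fun x : S => (x.1 : E) := continuous_subtype_val
  have h3 : Continuous fun x : S => (x.1 : E).1 := continuous_fst.comp h2
  have h4 : Continuous fun x : S => (x.1 : E).2 := continuous_snd.comp h2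
  exact (continuous_const.mul h3).prodMk (continuous_const.mul h4)

lemma act_add (m n : ℕ) (x : S) : act (m + n) x = act m (act n x) := by
  apply Subtype.ext
  rw [act_val, act_val, act_val]
  simp only [rot, pow_add, mul_assoc]

lemma act_zero (x : S) : act 0 x = x := by
  apply Subtype.ext
  rw [act_val]
  simp [rot]

lemma act_six (x : S) : act 6 x = x := by
  apply Subtype.ext
  rw [act_val]
  have h6 : om ^ 6 = 1 := by
    calc om ^ 6 = (om ^ 3) ^ 2 := by ring
      _ = 1 := by rw [om_cube, one_pow]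
  have h6' : ((-1 : ℂ)) ^ 6 = 1 := by norm_num
  rw [h6, h6']
  simp [rot]

lemma act_mod (n : ℕ) (x : S) : act (n % 6) x = act n x := by
  conv_rhs => rw [← Nat.mod_add_div n 6]
  rw [act_add]
  congr 1
  induction n / 6 with
  | zero => simp [act_zero]
  | succ k ih => rw [Nat.mul_succ, act_add, act_six, ← ih]

lemma act_val_add (k l : ZMod 6) (x : S) : act (k + l).val x = act k.val (act l.val x) := by
  rw [ZMod.val_add, act_mod, act_add]

lemma act_neg (k : ZMod 6) (x : S) : act k.val (act (-k).val x) = x := by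
  rw [← act_val_add, add_neg_cancel, ZMod.val_zero, act_zero]

lemma nrm_rot {w s : ℂ} (h : Good w s) (p : E) : nrm (rot w s p) = rot w s (nrm p) := by
  rw [nrm, nrm, N_rot h]
  simp only [rot, Prod.smul_mk, Prod.smul_fst, Prod.smul_snd, Complex.real_smul]
  apply Prod.ext
  · simp only []
    ring
  · simp only []
    ring

lemma f_act (n : ℕ) (x : S) : f (act n x) = act n (f x) := by
  apply Subtype.ext
  rw [f_val, act_val, act_val, f_val, P0_rot (om_good.pow n), nrm_rot (om_good.pow n)]

lemma act_one_ne (x : S) : act 1 x ≠ x := by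
  intro h
  have h1 : rot (om ^ 1) ((-1) ^ 1) x.1 = x.1 := congrArg Subtype.val h
  have ha : om * x.1.1 = x.1.1 := by
    have := congrArg Prod.fst h1
    simpa [rot] using this
  have hb : -x.1.2 = x.1.2 := by
    have := congrArg Prod.snd h1
    simpa [rot] using this
  have hb0 : x.1.2 = 0 := by
    have : (2 : ℂ) * x.1.2 = 0 := by linear_combination -hb
    simpa using this
  have ha0 : x.1.1 = 0 := by
    have h3 : (om - 1) * x.1.1 = 0 := by linear_combination ha
    rcases mul_eq_zero.1 h3 with h4 | h4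
    · exfalso
      have := congrArg Complex.re h4
      simp [om] at this
      norm_num at this
    · exact h4
  have hN : N x.1 = 1 := x.2
  simp [N, ha0, hb0] at hN

/-- The null homotopy. -/
noncomputable def Hom : ContinuousMap.Homotopy f (ContinuousMap.const S base) :=
  f_homotopic.some

/-- The null homotopy with a real time parameter. -/
noncomputable def Hh (t : ℝ) (x : S) : S := Hom (Set.projIcc 0 1 zero_le_one t, x)

lemma Hh_zero (x : S) : Hh 0 x = f x := by
  have : Set.projIcc (0 : ℝ) 1 zero_le_one 0 = (0 : I) := Set.projIcc_left ..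
  rw [Hh, this]
  exact Hom.apply_zero x

lemma Hh_one (x : S) : Hh 1 x = base := by
  have : Set.projIcc (0 : ℝ) 1 zero_le_one 1 = (1 : I) := Set.projIcc_right ..
  rw [Hh, this]
  exact Hom.apply_one x

lemma continuous_Hh : Continuous fun q : ℝ × S => Hh q.1 q.2 := by
  unfold Hh
  exact Hom.continuous.comp ((continuous_projIcc.comp continuous_fst).prodMk continuous_snd)

/-- The null homotopy along the leg `k`. -/
noncomputable def Phi (k : ZMod 6) (t : ℝ) (x : S) : S := act k.val (Hh t (act (-k).val x))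

lemma continuous_Phi (k : ZMod 6) : Continuous fun q : ℝ × S => Phi k q.1 q.2 := by
  unfold Phi
  refine (continuous_act _).comp ?_
  exact continuous_Hh.comp (continuous_fst.prodMk ((continuous_act _).comp continuous_snd))

lemma Phi_zero (k : ZMod 6) (x : S) : Phi k 0 x = f x := by
  rw [Phi, Hh_zero, f_act, act_neg]

lemma Phi_one (x : S) : Phi 0 1 x = base := by
  rw [Phi, Hh_one, ZMod.val_zero, act_zero]

lemma Phi_shift (k : ZMod 6) (t : ℝ) (x : S) :
    Phi (k + 1) t (act 1 x) = act 1 (Phi k t x) := by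
  have h1 : act (-(k + 1)).val (act 1 x) = act (-k).val x := by
    have : act 1 x = act (1 : ZMod 6).val x := rfl
    rw [this, ← act_val_add]
    congr 2
    ring
  have h2 : ∀ y, act (k + 1).val y = act 1 (act k.val y) := by
    intro y
    rw [add_comm, act_val_add]
    rfl
  rw [Phi, h1, h2, Phi]

/-- The star with six legs. -/
def C : Type := {c : ZMod 6 → ℝ // (∀ k, c k ∈ Set.Icc (0 : ℝ) 1) ∧ ∀ k l, k ≠ l → c k * c l = 0}

instance : TopologicalSpace C := inferInstanceAs (TopologicalSpace
  {c : ZMod 6 → ℝ // (∀ k, c k ∈ Set.Icc (0 : ℝ) 1) ∧ ∀ k l, k ≠ l → c k * c l = 0})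

instance : T2Space C := inferInstanceAs (T2Space
  {c : ZMod 6 → ℝ // (∀ k, c k ∈ Set.Icc (0 : ℝ) 1) ∧ ∀ k l, k ≠ l → c k * c l = 0})

instance : SecondCountableTopology C := inferInstanceAs (SecondCountableTopology
  {c : ZMod 6 → ℝ // (∀ k, c k ∈ Set.Icc (0 : ℝ) 1) ∧ ∀ k l, k ≠ l → c k * c l = 0})

instance : SecondCountableTopology S := inferInstanceAs (SecondCountableTopology
  {p : E // N p = 1})

lemma isCompact_star : IsCompact {c : ZMod 6 → ℝ |
    (∀ k, c k ∈ Set.Icc (0 : ℝ) 1) ∧ ∀ k l, k ≠ l → c k * c l = 0} := by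
  have h1 : IsCompact (Set.pi Set.univ fun _ : ZMod 6 => Set.Icc (0 : ℝ) 1) :=
    isCompact_univ_pi fun _ => isCompact_Icc
  refine h1.of_isClosed_subset ?_ fun c hc k _ => hc.1 k
  simp only [Set.ofPred_and, Set.ofPred_forall]
  refine IsClosed.inter ?_ ?_
  · exact isClosed_iInter fun k => isClosed_Icc.preimage (continuous_apply k)
  · exact isClosed_iInter fun k => isClosed_iInter fun l => isClosed_iInter fun _ =>
      isClosed_eq ((continuous_apply k).mul (continuous_apply l)) continuous_const

instance : CompactSpace C := isCompact_iff_compactSpace.1 isCompact_star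

/-- In the star at most one coordinate does not vanish. -/
lemma star_cases (c : C) : ∃ k, ∀ l, l ≠ k → c.1 l = 0 := by
  by_cases h : ∃ k, c.1 k ≠ 0
  · obtain ⟨k, hk⟩ := h
    refine ⟨k, fun l hl => ?_⟩
    exact (mul_eq_zero.1 (c.2.2 l k hl)).resolve_right hk
  · push Not at h
    exact ⟨0, fun l _ => h l⟩

/-- The sum formula. -/
noncomputable def Fval (x : S) (c : C) : E :=
  (f x).1 + ∑ k : ZMod 6, ((Phi k (c.1 k) x).1 - (f x).1)

lemma Fval_of {x : S} {c : C} {k : ZMod 6} (h : ∀ l, l ≠ k → c.1 l = 0) :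
    Fval x c = (Phi k (c.1 k) x).1 := by
  rw [Fval, Finset.sum_eq_single k]
  · abel
  · intro l _ hl
    rw [h l hl, Phi_zero, sub_self]
  · intro hk
    exact absurd (Finset.mem_univ k) hk

/-- The bonding map. -/
noncomputable def F (q : S × C) : S := ⟨Fval q.1 q.2, by
  obtain ⟨k, hk⟩ := star_cases q.2
  have := Fval_of (x := q.1) hk
  rw [this]
  exact (Phi k (q.2.1 k) q.1).2⟩

lemma F_of {x : S} {c : C} {k : ZMod 6} (h : ∀ l, l ≠ k → c.1 l = 0) :
    F (x, c) = Phi k (c.1 k) x := Subtype.ext (Fval_of h)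

lemma continuous_F : Continuous F := by
  refine Continuous.subtype_mk ?_ _
  have hf : Continuous fun q : S × C => ((f q.1).1 : E) :=
    continuous_subtype_val.comp (f.continuous.comp continuous_fst)
  unfold Fval
  refine hf.add (continuous_finsetSum _ fun k _ => ?_)
  refine Continuous.sub ?_ hf
  refine continuous_subtype_val.comp ((continuous_Phi k).comp (Continuous.prodMk ?_ continuous_fst))
  exact (continuous_apply k).comp (continuous_subtype_val.comp continuous_snd)

/-- The end of the leg with index zero. -/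
noncomputable def tip : C := ⟨Pi.single 0 1, by
  refine ⟨fun k => ?_, fun k l hkl => ?_⟩
  · by_cases hk : k = 0
    · subst hk
      simp
    · simp [Pi.single_eq_of_ne hk]
  · by_cases hk : k = 0
    · have hl : l ≠ 0 := fun hl => hkl (hk.trans hl.symm)
      rw [Pi.single_eq_of_ne hl, mul_zero]
    · rw [Pi.single_eq_of_ne hk, zero_mul]⟩

lemma F_tip (x : S) : F (x, tip) = base := by
  rw [F_of (k := 0) (fun l hl => Pi.single_eq_of_ne hl 1)]
  have : tip.1 0 = 1 := Pi.single_eq_same (M := fun _ : ZMod 6 => ℝ) 0 1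
  rw [this, Phi_one]

/-- Rotation of the legs. -/
def shift (c : C) : C := ⟨fun k => c.1 (k - 1), fun k => c.2.1 (k - 1), fun _ _ hkl =>
  c.2.2 _ _ fun h => hkl (sub_left_injective h)⟩

lemma continuous_shift : Continuous shift := by
  refine Continuous.subtype_mk ?_ _
  exact continuous_pi fun k => (continuous_apply (k - 1)).comp continuous_subtype_val

lemma F_shift (x : S) (c : C) : F (act 1 x, shift c) = act 1 (F (x, c)) := by
  obtain ⟨k, hk⟩ := star_cases c
  have hk' : ∀ l, l ≠ k + 1 → (shift c).1 l = 0 := by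
    intro l hl
    exact hk _ fun h => hl (by rw [← h]; ring)
  rw [F_of hk, F_of hk']
  have : (shift c).1 (k + 1) = c.1 k := by
    change c.1 (k + 1 - 1) = c.1 k
    rw [add_sub_cancel_right]
  rw [this, Phi_shift]

/-- The contraction of the star to `tip`. -/
noncomputable def K (c : C) (t : ℝ) (ht : t ∈ Set.Icc (0 : ℝ) 1) : C :=
  ⟨fun k => max (1 - 2 * t) 0 * c.1 k + max (2 * t - 1) 0 * tip.1 k, by
    obtain ⟨ht0, ht1⟩ := ht
    have h1 : 0 ≤ max (1 - 2 * t) 0 := le_max_right _ _
    have h2 : 0 ≤ max (2 * t - 1) 0 := le_max_right _ _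
    have h3 : max (1 - 2 * t) 0 + max (2 * t - 1) 0 ≤ 1 := by
      rcases le_total t (1 / 2) with h | h
      · rw [max_eq_left (by linarith), max_eq_right (by linarith)]
        linarith
      · rw [max_eq_right (by linarith), max_eq_left (by linarith)]
        linarith
    refine ⟨fun k => ⟨?_, ?_⟩, fun k l hkl => ?_⟩
    · exact add_nonneg (mul_nonneg h1 (c.2.1 k).1) (mul_nonneg h2 (tip.2.1 k).1)
    · have := mul_le_mul_of_nonneg_left (c.2.1 k).2 h1
      have := mul_le_mul_of_nonneg_left (tip.2.1 k).2 h2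
      linarith
    · have h4 := c.2.2 k l hkl
      have h5 := tip.2.2 k l hkl
      rcases le_total t (1 / 2) with h | h
      · rw [max_eq_right (by linarith : 2 * t - 1 ≤ 0)]
        linear_combination (max (1 - 2 * t) 0) ^ 2 * h4
      · rw [max_eq_right (by linarith : 1 - 2 * t ≤ 0)]
        linear_combination (max (2 * t - 1) 0) ^ 2 * h5⟩

lemma K_zero (c : C) (h : (0 : ℝ) ∈ Set.Icc (0 : ℝ) 1) : K c 0 h = c := by
  apply Subtype.ext
  funext k
  change max (1 - 2 * (0 : ℝ)) 0 * c.1 k + max (2 * (0 : ℝ) - 1) 0 * tip.1 k = c.1 k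
  norm_num

lemma K_one (c : C) (h : (1 : ℝ) ∈ Set.Icc (0 : ℝ) 1) : K c 1 h = tip := by
  apply Subtype.ext
  funext k
  change max (1 - 2 * (1 : ℝ)) 0 * c.1 k + max (2 * (1 : ℝ) - 1) 0 * tip.1 k = tip.1 k
  norm_num

end Pool.Agent.Lib.MP_3c821f_gt
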