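import Mathlib
import Pool.Agent.Lib.MP_3c821f_gt.Tower

set_option autoImplicit false

open scoped ComplexConjugate unitInterval

namespace Pool.Agent.Lib.MP_3c821f_gt

/-- The homotopy inverse limit. -/
def M : Type := {m : ℕ → S × C // ∀ i, (m i).1 = F ((m (i + 1)).1, (m i).2)}

instance : TopologicalSpace M := inferInstanceAs (TopologicalSpace
  {m : ℕ → S × C // ∀ i, (m i).1 = F ((m (i + 1)).1, (m i).2)})

instance : T2Space M := inferInstanceAs (T2Space
  {m : ℕ → S × C // ∀ i, (m i).1 = F ((m (i + 1)).1, (m i).2)})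

instance : SecondCountableTopology M :=
  (Topology.IsEmbedding.subtypeVal
    (p := fun m : ℕ → S × C => ∀ i, (m i).1 = F ((m (i + 1)).1, (m i).2))).secondCountableTopology

lemma isCompact_M : IsCompact {m : ℕ → S × C | ∀ i, (m i).1 = F ((m (i + 1)).1, (m i).2)} := by
  apply IsClosed.isCompact
  simp only [Set.ofPred_forall]
  refine isClosed_iInter fun i => isClosed_eq ?_ ?_
  · exact continuous_fst.comp (continuous_apply i)
  · exact continuous_F.comp ((continuous_fst.comp (continuous_apply (i + 1))).prodMk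
      (continuous_snd.comp (continuous_apply i)))

instance : CompactSpace M := isCompact_iff_compactSpace.1 isCompact_M

instance : TopologicalSpace.MetrizableSpace M :=
  TopologicalSpace.metrizableSpace_of_t3_secondCountable M

lemma M_rel (m : M) (i : ℕ) : (m.1 i).1 = F ((m.1 (i + 1)).1, (m.1 i).2) := m.2 i

/-- The periodic map. -/
noncomputable def hM (m : M) : M := ⟨fun i => (act 1 (m.1 i).1, shift (m.1 i).2), fun i => by
  change act 1 (m.1 i).1 = F (act 1 (m.1 (i + 1)).1, shift (m.1 i).2)
  rw [F_shift, ← M_rel]⟩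

lemma continuous_hM : Continuous hM := by
  refine Continuous.subtype_mk (continuous_pi fun i => ?_) _
  have h1 : Continuous fun m : M => m.1 i := (continuous_apply i).comp continuous_subtype_val
  exact ((continuous_act 1).comp (continuous_fst.comp h1)).prodMk
    (continuous_shift.comp (continuous_snd.comp h1))

lemma hM_iterate (n : ℕ) (m : M) (i : ℕ) :
    ((hM^[n] m).1 i) = (act n (m.1 i).1, shift^[n] (m.1 i).2) := by
  induction n with
  | zero => simp [act_zero]
  | succ n ih =>
    rw [Function.iterate_succ_apply', Function.iterate_succ_apply', Nat.add_comm n 1, act_add]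
    change (act 1 ((hM^[n] m).1 i).1, shift ((hM^[n] m).1 i).2) = _
    rw [ih]

lemma shift_iterate (n : ℕ) (c : C) (k : ZMod 6) : (shift^[n] c).1 k = c.1 (k - n) := by
  induction n generalizing k with
  | zero => simp
  | succ n ih =>
    rw [Function.iterate_succ_apply']
    change (shift^[n] c).1 (k - 1) = _
    rw [ih]
    have : k - 1 - (n : ZMod 6) = k - ((n + 1 : ℕ) : ZMod 6) := by
      push_cast
      ring
    rw [this]

lemma hM_six : hM^[6] = id := by
  funext m
  apply Subtype.ext
  funext i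
  rw [hM_iterate, act_six]
  have : shift^[6] (m.1 i).2 = (m.1 i).2 := by
    apply Subtype.ext
    funext k
    rw [shift_iterate]
    have : ((6 : ℕ) : ZMod 6) = 0 := by decide
    rw [this, sub_zero]
  rw [this]
  rfl

/-- The periodic homeomorphism. -/
noncomputable def eM : M ≃ₜ M where
  toFun := hM
  invFun := hM^[5]
  left_inv m := by
    have := congrFun hM_six m
    rw [Function.iterate_succ_apply] at this
    exact this
  right_inv m := by
    have := congrFun hM_six m
    rw [Function.iterate_succ_apply'] at this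
    exact this
  continuous_toFun := continuous_hM
  continuous_invFun := continuous_hM.iterate 5

/-- The clock of the coordinate `i`. -/
noncomputable def clk (i : ℕ) (t : ℝ) : ℝ := max 0 (min 1 (2 ^ (i + 1) * t - 2 ^ (i + 1) + 2))

lemma clk_mem (i : ℕ) (t : ℝ) : clk i t ∈ Set.Icc (0 : ℝ) 1 :=
  ⟨le_max_left _ _, max_le zero_le_one (min_le_left _ _)⟩

lemma clk_zero (i : ℕ) : clk i 0 = 0 := by
  have : (2 : ℝ) ≤ 2 ^ (i + 1) := by
    calc (2 : ℝ) = 2 ^ 1 := by norm_num
      _ ≤ 2 ^ (i + 1) := pow_le_pow_right₀ (by norm_num) (by omega)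
  rw [clk]
  apply max_eq_left
  refine (min_le_right _ _).trans ?_
  linarith

lemma clk_one (i : ℕ) : clk i 1 = 1 := by
  rw [clk]
  have : (2 : ℝ) ^ (i + 1) * 1 - 2 ^ (i + 1) + 2 = 2 := by ring
  rw [this]
  norm_num

lemma clk_succ (i : ℕ) (t : ℝ) (h : clk (i + 1) t ≠ 0) : clk i t = 1 := by
  have h1 : 0 < min 1 ((2 : ℝ) ^ (i + 1 + 1) * t - 2 ^ (i + 1 + 1) + 2) := by
    by_contra hcon
    exact h (max_eq_left (not_lt.1 hcon))
  have h2 : 0 < (2 : ℝ) ^ (i + 1 + 1) * t - 2 ^ (i + 1 + 1) + 2 := h1.trans_le (min_le_right _ _)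
  have h3 : (2 : ℝ) ^ (i + 1 + 1) = 2 * 2 ^ (i + 1) := by ring
  rw [h3] at h2
  rw [clk]
  have h4 : 1 ≤ (2 : ℝ) ^ (i + 1) * t - 2 ^ (i + 1) + 2 := by linarith
  rw [min_eq_left h4]
  norm_num

lemma continuous_clk (i : ℕ) : Continuous (clk i) := by
  unfold clk
  fun_prop

/-- The moved cone coordinate. -/
noncomputable def mc (t : ℝ) (m : M) (i : ℕ) : C := K (m.1 i).2 (clk i t) (clk_mem i t)

lemma mc_of_one {t : ℝ} {m : M} {i : ℕ} (h : clk i t = 1) : mc t m i = tip := by
  unfold mc
  have : K (m.1 i).2 (clk i t) (clk_mem i t) = K (m.1 i).2 1 ⟨zero_le_one, le_rfl⟩ := by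
    congr 1
  rw [this, K_one]

lemma mc_of_zero {t : ℝ} {m : M} {i : ℕ} (h : clk i t = 0) : mc t m i = (m.1 i).2 := by
  unfold mc
  have : K (m.1 i).2 (clk i t) (clk_mem i t) = K (m.1 i).2 0 ⟨le_rfl, zero_le_one⟩ := by
    congr 1
  rw [this, K_zero]

/-- The contraction. -/
noncomputable def Th (t : ℝ) (m : M) : M :=
  ⟨fun i => (F ((m.1 (i + 1)).1, mc t m i), mc t m i), fun i => by
    change F ((m.1 (i + 1)).1, mc t m i) = F (F ((m.1 (i + 1 + 1)).1, mc t m (i + 1)), mc t m i)
    by_cases h : clk (i + 1) t = 0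
    · rw [mc_of_zero (i := i + 1) h, ← M_rel]
    · rw [mc_of_one (clk_succ i t h), F_tip, F_tip]⟩

lemma Th_zero (m : M) : Th 0 m = m := by
  apply Subtype.ext
  funext i
  change (F ((m.1 (i + 1)).1, mc 0 m i), mc 0 m i) = m.1 i
  rw [mc_of_zero (clk_zero i), ← M_rel]

/-- The end point of the contraction. -/
noncomputable def baseM : M := ⟨fun _ => (base, tip), fun _ => (F_tip base).symm⟩

lemma Th_one (m : M) : Th 1 m = baseM := by
  apply Subtype.ext
  funext i
  change (F ((m.1 (i + 1)).1, mc 1 m i), mc 1 m i) = (base, tip)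
  rw [mc_of_one (clk_one i), F_tip]

lemma continuous_mc (i : ℕ) : Continuous fun q : I × M => mc (q.1 : ℝ) q.2 i := by
  refine Continuous.subtype_mk (continuous_pi fun k => ?_) _
  have h1 : Continuous fun q : I × M => clk i (q.1 : ℝ) :=
    (continuous_clk i).comp (continuous_subtype_val.comp continuous_fst)
  have h2 : Continuous fun q : I × M => (q.2.1 i).2.1 k :=
    (continuous_apply k).comp (continuous_subtype_val.comp
      (continuous_snd.comp ((continuous_apply i).comp (continuous_subtype_val.comp continuous_snd))))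
  exact (((continuous_const.sub (continuous_const.mul h1)).max continuous_const).mul h2).add
    ((((continuous_const.mul h1).sub continuous_const).max continuous_const).mul continuous_const)

lemma continuous_Th : Continuous fun q : I × M => Th (q.1 : ℝ) q.2 := by
  refine Continuous.subtype_mk (continuous_pi fun i => ?_) _
  refine Continuous.prodMk (continuous_F.comp (Continuous.prodMk ?_ (continuous_mc i)))
    (continuous_mc i)
  exact continuous_fst.comp ((continuous_apply (i + 1)).comp
    (continuous_subtype_val.comp continuous_snd))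

instance : ContractibleSpace M := by
  rw [contractible_iff_id_nullhomotopic]
  refine ⟨baseM, ⟨⟨⟨fun q : I × M => Th (q.1 : ℝ) q.2, continuous_Th⟩, ?_, ?_⟩⟩⟩
  · intro m
    change Th ((0 : I) : ℝ) m = m
    rw [Set.Icc.coe_zero, Th_zero]
  · intro m
    change Th ((1 : I) : ℝ) m = baseM
    rw [Set.Icc.coe_one, Th_one]

lemma exists_counterexample : ∃ (M : Type) (_ : TopologicalSpace M), CompactSpace M ∧
    TopologicalSpace.MetrizableSpace M ∧ ContractibleSpace M ∧
    ∃ e : M ≃ₜ M, (⇑e)^[6] = id ∧ ∀ x, e x ≠ x := by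
  refine ⟨M, inferInstance, inferInstance, inferInstance, inferInstance, eM, hM_six, ?_⟩
  intro m h
  have h1 : (hM m).1 0 = m.1 0 := congrArg (fun z : M => z.1 0) h
  exact act_one_ne (m.1 0).1 (congrArg Prod.fst h1)

end Pool.Agent.Lib.MP_3c821f_gt
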